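import Pool.Agent.H.MP_493890.A

set_option autoImplicit false

open Set Filter Topology TopologicalSpace

namespace Pool.Agent.Results.MP_493890_gt.Yes

variable {X : Type} [TopologicalSpace X]

/-- functionally F-sigma sets -/
def FFs (A : Set X) : Prop :=
  ∃ Z : ℕ → Set X, (∀ n, ∃ f : C(X, unitInterval), Z n = f ⁻¹' {0}) ∧ A = ⋃ n, Z n

/-- functionally G-delta sets -/
def FGd (A : Set X) : Prop :=
  ∃ Z : ℕ → Set X, (∀ n, ∃ f : C(X, unitInterval), Z n = f ⁻¹' Ioc 0 1) ∧ A = ⋂ n, Z n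

/-- 1-embedded subsets -/
def Emb1 (E : Set X) : Prop :=
  (∀ A : Set E, FFs A → ∃ B : Set X, FFs B ∧ A = Subtype.val ⁻¹' B) ∧
  ∀ A : Set E, FGd A → ∃ B : Set X, FGd B ∧ A = Subtype.val ⁻¹' B

open Pool.Agent.H.MP_493890 in
theorem result : ∃ (X : Type) (_ : TopologicalSpace X), T35Space X ∧ ¬ NormalSpace X ∧
    ¬ PerfectlyNormalSpace X ∧ ∀ E : Set X, Emb1 E := by
  classical
  have h : ∀ A : Set H.MP_493890.X, FFs A := fun A => by
    obtain ⟨C, c1, c2⟩ := fsigma A
    obtain ⟨s, hs⟩ := exists_surjective_nat (Option ℕ ⊕ ℕ)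
    refine ⟨fun n => ⋂ m, C (s n) m, fun n => ?_, c2.trans (hs.iUnion_comp _).symm⟩
    let _ := metrizableSpaceMetric (ℕ → Bool)
    have g : Continuous fun x m => decide (x ∈ C (s n) m) := continuous_pi fun m =>
      (continuous_bool_rng true).2 (by simpa [preimage] using c1 (s n) m)
    refine ⟨⟨fun x => projIcc 0 1 zero_le_one (dist (fun m => decide (x ∈ C (s n) m)) fun _ => true),
      continuous_projIcc.comp (g.dist continuous_const)⟩, Set.ext fun x => ?_⟩
    simp [funext_iff]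
  have h' : ∀ A : Set H.MP_493890.X, FGd A := fun A => by
    obtain ⟨Z, z1, z2⟩ := h Aᶜ
    refine ⟨fun n => (Z n)ᶜ, fun n => (z1 n).imp fun f hf => ?_, by rw [← compl_iUnion, ← z2, compl_compl]⟩
    ext x
    simp [hf, unitInterval.pos_iff_ne_zero, unitInterval.le_one']
  exact ⟨H.MP_493890.X, inferInstance, inferInstance, not_normal, fun _ => not_normal inferInstance,
    fun E => ⟨fun A _ => ⟨_, h _, (preimage_image_eq A Subtype.val_injective).symm⟩,
      fun A _ => ⟨_, h' _, (preimage_image_eq A Subtype.val_injective).symm⟩⟩⟩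

end Pool.Agent.Results.MP_493890_gt.Yes
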